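import Pool.Agent.Helper873_Hecke.Main
import Pool.Agent.Helper873_Hecke.Pp

set_option autoImplicit false

/-!
# The Hecke lifting conjecture for framed links holds for all framed links and all primes

Framed oriented links are given as closures of braid words with the blackboard framing (Alexander's
theorem; a stabilisation changes the framing of one component by one). `H n w` is the framed
HOMFLY-PT invariant of the closure of the word `w` on `n` strands.
-/

namespace Pool.Agent.Results.MP_e17fed_gt.HeckeLifting

open Pool.Agent.H873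

/-- There is exactly one function `H` on closed braids which satisfies the rules of the framed
HOMFLY-PT invariant, and it satisfies the congruence
`Ž_p ≡ (-1)^{(p-1)σ} Ψ_p(Ž_1) mod [p]²` in `ℤ[z², a^{±1}]` for every prime `p` and every closed
braid. -/
theorem result :
    ∃ H : ℕ → BW → Kqa, MRules vz va va⁻¹ ((va - va⁻¹) / vz) H ∧
      (∀ H' : ℕ → BW → Kqa, MRules vz va va⁻¹ ((va - va⁻¹) / vz) H' →
        ∀ n w, Valid n w → H' n w = H n w) ∧
      ∀ (p : ℕ) (hp : p.Prime) (n : ℕ) (w : BW), Valid n w →
        (Zv H p n w - (-1) ^ (((p : ℤ) - 1) * totalFraming w) * adams p hp.pos (Zv H 1 n w)) /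
          qbr p ^ 2 ∈ Aza := by
  obtain ⟨⟨H, hH⟩, huniq, hmain⟩ := final_of_Pp t_Pp
  exact ⟨H, hH, fun H' hH' n w hw => huniq H' H hH' hH n w hw, hmain H hH⟩

end Pool.Agent.Results.MP_e17fed_gt.HeckeLifting
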